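import Pool.Agent.Q269.SX.StR
import Pool.Agent.Q257.GJ.TR

/-! Project SX (helper269), job ADX: the class and the order of the kernel are admissible properties
(adapted from the job ADM of project GJ by helper257). -/

set_option autoImplicit false
set_option linter.all false

open scoped Classical
open Finset Polynomial

namespace Pool.Agent.Q124.SX

open Pool.Agent.Q269.GR (Dn pr Pfam)
open Pool.Agent.Q269.GJ (AdmD Ip)
open Pool.Agent.Y164.PS (L L_comm)
open Pool.Agent.Y164.HG (Geo Del Tau QQ EW AT BT V Dat kc FF Symp)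
open Pool.Agent.Q257.GJ (tr dg_tr FF_tr tr_surj tr_eq_zero L_self ix ix_val)
open Pool.Agent.Q269.SX

section equiv

variable {W : Type} [AddCommGroup W] [Module Pool.Agent.Y164.HG.F2 W] [Pool.Agent.Y164.HG.Symp W]
variable {ι ι' τ : Type} [Fintype ι] [Fintype ι'] [Fintype τ]

theorem tr_inj (e : ι ≃ ι') {w w' : V W ι' τ} (h : tr e w = tr e w') : w = w' := by
  apply Prod.ext
  · funext i
    have h1 : w.1 (e (e.symm i)) = w'.1 (e (e.symm i)) := congrFun (congrArg Prod.fst h) (e.symm i)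
    rw [e.apply_symm_apply] at h1
    exact h1
  · have h3 : (tr e w).2 = (tr e w').2 := congrArg (fun z : V W ι τ => z.2) h
    exact h3

/-- invariance of the order of the kernel under bijections of the index type -/
theorem kc_tr (D : Dat W τ) (A : ι' → ι' → Pool.Agent.Y164.HG.F2) (B : ι' → τ → Pool.Agent.Y164.HG.F2)
    (d : ι' → Pool.Agent.Y164.HG.F2) (e : ι ≃ ι') :
    kc D (fun i j => A (e i) (e j)) (fun i s => B (e i) s) (fun i => d (e i)) = kc D A B d := by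
  unfold kc
  symm
  refine Nat.card_congr (Equiv.ofBijective (fun w => ⟨tr e w.1, ?_, ?_⟩) ⟨?_, ?_⟩)
  · rw [dg_tr]; exact w.2.1
  · intro v' hv'
    obtain ⟨w', rfl⟩ := tr_surj e v'
    rw [dg_tr] at hv'
    rw [FF_tr]
    exact w.2.2 w' hv'
  · intro w w' h
    exact Subtype.ext (tr_inj e (congrArg Subtype.val h))
  · rintro ⟨v, h1, h2⟩
    obtain ⟨w, rfl⟩ := tr_surj e v
    refine ⟨⟨w, ?_, ?_⟩, rfl⟩
    · rw [dg_tr] at h1; exact h1
    · intro w' hw'
      have := h2 (tr e w') (by rw [dg_tr]; exact hw')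
      rw [FF_tr] at this
      exact this

end equiv

section

variable {k : Type} [Field k] [Fintype k] {n : ℕ} {a : Fin n → k[X]} {N : ℕ} (H : Geo a N)

theorem sgD_prod {Δ : k[X]} {ι : Type} [Fintype ι] {P : ι → k[X]} (hP : Pfam Δ P) (s : Tau a) :
    sgD H (∏ i, P i) s = ∑ i, L (P i) (QQ a s) + H.comb.gg s := by
  unfold sgD
  rw [← (ix hP).sum_comp]
  rfl

theorem kD_prod [Fact (Odd n)] {Δ : k[X]} {ι : Type} [Fintype ι] {P : ι → k[X]} (hP : Pfam Δ P) :
    kD H (∏ i, P i) = kc (H.dat (sgD H (∏ i, P i))) (AT P) (BT (QQ a) P)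
      (fun i => ((P i).natDegree : Pool.Agent.Q269.GR.F2)) := by
  unfold kD
  exact (kc_tr (H.dat (sgD H (∏ i, P i))) (AT fun x : Ip (∏ i, P i) => x.1)
      (BT (QQ a) fun x : Ip (∏ i, P i) => x.1)
      (fun x : Ip (∏ i, P i) => (x.1.natDegree : Pool.Agent.Q269.GR.F2)) (ix hP)).symm

theorem both_congr {m : ℕ} {P P' : Fin m → k[X]} (hP : Pfam (Del a) P) (hP' : Pfam (Del a) P')
    (h1 : ∀ i, (P i).natDegree = (P' i).natDegree)
    (h2 : ∀ i j, i ≠ j → L (P i) (P j) = L (P' i) (P' j))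
    (h3 : ∀ Q : k[X], Q.Monic → Irreducible Q → Q ∣ Del a → ∀ i, L Q (P i) = L Q (P' i)) :
    sgD H (∏ i, P i) = sgD H (∏ i, P' i) ∧ kD H (∏ i, P i) = kD H (∏ i, P' i) := by
  haveI : Fact (Odd n) := ⟨H.hn⟩
  have e1 : AT P = AT P' := by
    funext i j
    by_cases hij : i = j
    · subst hij
      show L (P i) (P i) = L (P' i) (P' i)
      rw [L_self (hP.irr i), L_self (hP'.irr i)]
    · exact h2 i j hij
  have e2 : BT (QQ a) P = BT (QQ a) P' := by
    funext i s
    obtain ⟨q1, q2, q3⟩ := H.mem.1 s.2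
    show L (P i) (QQ a s) = L (P' i) (QQ a s)
    rw [L_comm H.hm (P i), L_comm H.hm (P' i)]
    exact h3 _ q1 q2 q3 i
  have e3 : (fun i => ((P i).natDegree : Pool.Agent.Q269.GR.F2)) =
      fun i => ((P' i).natDegree : Pool.Agent.Q269.GR.F2) := by
    funext i
    rw [h1 i]
  have e4 : sgD H (∏ i, P i) = sgD H (∏ i, P' i) := by
    funext s
    rw [sgD_prod H hP, sgD_prod H hP']
    congr 1
    exact sum_congr rfl fun i _ => congrFun (congrFun e2 i) s
  refine ⟨e4, ?_⟩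
  rw [kD_prod H hP, kD_prod H hP', e1, e2, e3, e4]

end

/-- **ADX** -/
theorem t_ADX : S_ADX := by
  intro k _ _ n a N H σ M
  refine ⟨?_, ?_, ?_⟩
  · intro m P P' hP hP' h1 h2 h3
    obtain ⟨e1, e2⟩ := both_congr H hP hP' h1 h2 h3
    show (∀ s, sgD H (∏ i, P i) s = σ s) ∧ _ ↔ (∀ s, sgD H (∏ i, P' i) s = σ s) ∧ _
    rw [e1, e2]
  · intro m P P' hP hP' h1 h2 h3
    obtain ⟨e1, e2⟩ := both_congr H hP hP' h1 h2 h3
    show kD H (∏ i, P i) = M ↔ kD H (∏ i, P' i) = M
    rw [e2]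
  · intro m P P' hP hP' h1 h2 h3
    obtain ⟨e1, e2⟩ := both_congr H hP hP' h1 h2 h3
    show (∀ s, sgD H (∏ i, P i) s = σ s) ↔ (∀ s, sgD H (∏ i, P' i) s = σ s)
    rw [e1]

end Pool.Agent.Q124.SX
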