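import Pool.Agent.Q269.SX.StR

/-! Project SX (helper269), job NSL: the number of the solutions. -/

set_option autoImplicit false
set_option linter.all false

open scoped Classical
open Finset Polynomial

namespace Pool.Agent.Q124.SX

open Pool.Agent.Q269.GR (Dn pr Pfam F2)
open Pool.Agent.Q269.GJ (Ip EQ1 EQ2)
open Pool.Agent.Y164.PS (L L_comm)
open Pool.Agent.Y164.HG (Geo Del Tau QQ EW AT BT V Dat kc FF Symp E1 E2)
open Pool.Agent.Q269.SX

theorem add_self2 (x : F2) : x + x = 0 := CharTwo.add_self_eq_zero x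

theorem card_EW (n : ℕ) (hn : 1 ≤ n) : Nat.card (EW n) = 2 ^ (n - 1) := by
  obtain ⟨m, rfl⟩ : ∃ m, n = m + 1 := ⟨n - 1, by omega⟩
  have h1 : Nat.card (EW (m + 1)) = Nat.card (Fin m → F2) := by
    refine Nat.card_congr
      { toFun := fun v i => v.1 i.succ
        invFun := fun u => ⟨Fin.cons (∑ i, u i) u, ?_⟩
        left_inv := ?_
        right_inv := ?_ }
    · show ∑ i, (Fin.cons (∑ i, u i) u : Fin (m + 1) → F2) i = 0
      rw [Fin.sum_univ_succ]
      simp only [Fin.cons_zero, Fin.cons_succ]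
      exact add_self2 _
    · intro v
      apply Subtype.ext
      funext i
      refine Fin.cases ?_ (fun j => ?_) i
      · show ∑ i : Fin m, v.1 i.succ = v.1 0
        have h2 : ∑ i, v.1 i = 0 := v.2
        rw [Fin.sum_univ_succ] at h2
        have h3 : v.1 0 + (v.1 0 + ∑ i : Fin m, v.1 i.succ) = v.1 0 := by rw [h2, add_zero]
        rw [← add_assoc, add_self2, zero_add] at h3
        exact h3
      · rfl
    · intro u
      rfl
  rw [h1, Nat.card_fun, Nat.card_zmod, Nat.card_fin, Nat.add_sub_cancel]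

/-- **NSL** -/
theorem t_NSL (h1 : S_CNT) (h2 : Pool.Agent.Q269.GJ.S_CNV) (h3 : Pool.Agent.Q269.GR.S_PRD) : S_NSL := by
  intro k _ _ n a N H m hodd D hD
  haveI : Fact (Odd n) := ⟨H.hn⟩
  have hsum : ∑ P : Ip D, P.1.natDegree = m := by
    have h4 := ((h3 k (Del a) H.del_ne).2.1 m D hD).2.1
    rw [← h4]
    exact (Finset.sum_coe_sort (pr D) (fun P => P.natDegree))
  have key := h1 (EW n) (Ip D) (Tau a) (H.dat (sgD H D)) (AT fun P : Ip D => P.1)
    (BT (QQ a) fun P : Ip D => P.1) (fun P : Ip D => (P.1.natDegree : F2))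
    (fun P P' => L_comm H.hm _ _) (fun s => by
      show sgD H D s + ∑ P : Ip D, L P.1 (QQ a s) + H.comb.gg s = 0
      unfold sgD
      have e : ∀ x y : F2, x + y + x + y = 0 := by decide
      exact e _ _) (by
      show ∑ P : Ip D, (P.1.natDegree : F2) + (N : F2) = 1
      rw [← Nat.cast_sum, hsum, ← Nat.cast_add]
      exact (ZMod.natCast_eq_one_iff_odd).2 hodd)
  have e1 : Nat.card (SolN H D) = Nat.card {q : V (EW n) (Ip D) (Tau a) × EW n //
      (∀ P, E1 (A := AT fun P : Ip D => P.1) (H.dat (sgD H D)) (BT (QQ a) fun P : Ip D => P.1)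
        (fun P : Ip D => (P.1.natDegree : F2)) q.1 q.2 P = 0) ∧
      ∀ s, E2 (ι := Ip D) (H.dat (sgD H D)) (BT (QQ a) fun P : Ip D => P.1) q.1 q.2 s = 0} := by
    refine Nat.card_congr (Equiv.subtypeEquivRight fun q => ?_)
    obtain ⟨c1, c2⟩ := h2 k n a N H m D hD (sgD H D) q.1 q.2
    refine and_congr ⟨fun h P => ?_, fun h P l => ?_⟩ (forall_congr' fun s => ?_)
    · apply Subtype.ext
      funext l
      rw [c1 P l, h P l]
      rfl
    · rw [← c1 P l, h P]
      rfl
    · rw [c2 s]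
  rw [e1, key, card_EW n H.hn.pos]
  rfl

end Pool.Agent.Q124.SX
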